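import Mathlib

/-!
Label numerics for the amplified cluster expansion: a bound of the form `kappa ^ (m + q)`.
-/

set_option autoImplicit false

namespace Pool.Agent.Hhelper87.AM

private theorem sq_le (L : ℕ) : (L + 1) ^ 2 ≤ 4 * 2 ^ L := by
  induction L with
  | zero => norm_num
  | succ L ih =>
    rcases Nat.lt_or_ge L 2 with h | h
    · interval_cases L <;> norm_num
    · have h1 : (L + 1 + 1) ^ 2 ≤ 2 * (L + 1) ^ 2 := by nlinarith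
      calc (L + 1 + 1) ^ 2 ≤ 2 * (L + 1) ^ 2 := h1
        _ ≤ 2 * (4 * 2 ^ L) := by omega
        _ = 4 * 2 ^ (L + 1) := by ring

theorem label_num (d r kap1 c1 : ℕ) : ∃ kappa : ℕ, ∀ m p q K T : ℕ, 3 ≤ m → 1 ≤ q → p ≤ 4 * q →
    K = Nat.log 2 m → T ≤ c1 * (m + p) →
    2 ^ p * (2 * kap1) ^ T * d ^ (p + 1) *
      ((T + 1) * ((4 * r * 2 ^ K) ^ 2 * T + 1)) ^ (K + 1) ≤ kappa ^ (m + q) := by
  refine ⟨2 ^ 4 * (2 * kap1 + 1) ^ (4 * c1) * (d + 1) ^ 5 *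
    (((4 * c1 + 1) * (64 * r ^ 2 * c1 + 1)) * 2 ^ 16), ?_⟩
  intro m p q K T hm hq hp hK hT
  obtain ⟨s, hs⟩ : ∃ s, s = m + q := ⟨_, rfl⟩
  rw [← hs]
  have hs1 : 1 ≤ s := by omega
  have hms : m ≤ s := by omega
  have hp' : p ≤ 4 * s := by omega
  have hT' : T ≤ 4 * c1 * s := by
    calc T ≤ c1 * (m + p) := hT
      _ ≤ c1 * (4 * s) := Nat.mul_le_mul_left _ (by omega)
      _ = 4 * c1 * s := by ring
  have h2K : 2 ^ K ≤ s := by
    rw [hK]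
    exact (Nat.pow_log_le_self 2 (by omega)).trans hms
  have hK1 : K + 1 ≤ s := by
    have : K < 2 ^ K := Nat.lt_two_pow_self
    omega
  -- the four factors
  have a1 : 2 ^ p ≤ (2 ^ 4) ^ s := by
    rw [← pow_mul]
    exact Nat.pow_le_pow_right (by norm_num) hp'
  have a2 : (2 * kap1) ^ T ≤ ((2 * kap1 + 1) ^ (4 * c1)) ^ s := by
    calc (2 * kap1) ^ T ≤ (2 * kap1 + 1) ^ T := Nat.pow_le_pow_left (by omega) _
      _ ≤ (2 * kap1 + 1) ^ (4 * c1 * s) := Nat.pow_le_pow_right (by omega) hT'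
      _ = ((2 * kap1 + 1) ^ (4 * c1)) ^ s := by rw [← pow_mul]
  have a3 : d ^ (p + 1) ≤ ((d + 1) ^ 5) ^ s := by
    calc d ^ (p + 1) ≤ (d + 1) ^ (p + 1) := Nat.pow_le_pow_left (by omega) _
      _ ≤ (d + 1) ^ (5 * s) := Nat.pow_le_pow_right (by omega) (by omega)
      _ = ((d + 1) ^ 5) ^ s := by rw [← pow_mul]
  have b1 : T + 1 ≤ (4 * c1 + 1) * s := by
    calc T + 1 ≤ 4 * c1 * s + s := by omega
      _ = (4 * c1 + 1) * s := by ring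
  have b2 : (4 * r * 2 ^ K) ^ 2 * T + 1 ≤ (64 * r ^ 2 * c1 + 1) * s ^ 3 := by
    have e1 : (4 * r * 2 ^ K) ^ 2 * T ≤ (4 * r * s) ^ 2 * (4 * c1 * s) :=
      Nat.mul_le_mul (Nat.pow_le_pow_left (Nat.mul_le_mul_left _ h2K) 2) hT'
    have e2 : 1 ≤ s ^ 3 := Nat.one_le_pow _ _ hs1
    calc (4 * r * 2 ^ K) ^ 2 * T + 1 ≤ (4 * r * s) ^ 2 * (4 * c1 * s) + s ^ 3 := by omega
      _ = (64 * r ^ 2 * c1 + 1) * s ^ 3 := by ring
  have b3 : s ^ (K + 1) ≤ 2 ^ (4 * s) := by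
    obtain ⟨L, hL⟩ : ∃ L, L = Nat.log 2 s := ⟨_, rfl⟩
    have c1 : s ≤ 2 ^ (L + 1) := by
      rw [hL]
      exact (Nat.lt_pow_succ_log_self (by norm_num) s).le
    have c2 : 2 ^ L ≤ s := by
      rw [hL]
      exact Nat.pow_log_le_self 2 (by omega)
    have c3 : K ≤ L := by
      rw [hK, hL]
      exact Nat.log_mono_right hms
    calc s ^ (K + 1) ≤ (2 ^ (L + 1)) ^ (K + 1) := Nat.pow_le_pow_left c1 _
      _ = 2 ^ ((L + 1) * (K + 1)) := by rw [← pow_mul]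
      _ ≤ 2 ^ (4 * s) := by
        refine Nat.pow_le_pow_right (by norm_num) ?_
        calc (L + 1) * (K + 1) ≤ (L + 1) * (L + 1) := Nat.mul_le_mul_left _ (by omega)
          _ = (L + 1) ^ 2 := by ring
          _ ≤ 4 * 2 ^ L := sq_le L
          _ ≤ 4 * s := Nat.mul_le_mul_left _ c2
  have a4 : ((T + 1) * ((4 * r * 2 ^ K) ^ 2 * T + 1)) ^ (K + 1) ≤
      (((4 * c1 + 1) * (64 * r ^ 2 * c1 + 1)) * 2 ^ 16) ^ s := by
    calc ((T + 1) * ((4 * r * 2 ^ K) ^ 2 * T + 1)) ^ (K + 1)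
        ≤ (((4 * c1 + 1) * s) * ((64 * r ^ 2 * c1 + 1) * s ^ 3)) ^ (K + 1) :=
          Nat.pow_le_pow_left (Nat.mul_le_mul b1 b2) _
      _ = (((4 * c1 + 1) * (64 * r ^ 2 * c1 + 1)) ^ (K + 1)) * (s ^ (K + 1)) ^ 4 := by
          rw [← pow_mul, mul_comm (K + 1) 4, pow_mul, ← mul_pow]
          ring_nf
      _ ≤ (((4 * c1 + 1) * (64 * r ^ 2 * c1 + 1)) ^ s) * (2 ^ (4 * s)) ^ 4 := by
          refine Nat.mul_le_mul (Nat.pow_le_pow_right ?_ hK1) (Nat.pow_le_pow_left b3 4)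
          exact Nat.mul_pos (by omega) (by omega)
      _ = (((4 * c1 + 1) * (64 * r ^ 2 * c1 + 1)) * 2 ^ 16) ^ s := by
          have e1 : (2 ^ (4 * s)) ^ 4 = (2 ^ 16) ^ s := by
            rw [← pow_mul, ← pow_mul]
            congr 1
            ring
          rw [e1, ← mul_pow]
  calc 2 ^ p * (2 * kap1) ^ T * d ^ (p + 1) *
        ((T + 1) * ((4 * r * 2 ^ K) ^ 2 * T + 1)) ^ (K + 1)
      ≤ (2 ^ 4) ^ s * ((2 * kap1 + 1) ^ (4 * c1)) ^ s * ((d + 1) ^ 5) ^ s *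
        (((4 * c1 + 1) * (64 * r ^ 2 * c1 + 1)) * 2 ^ 16) ^ s :=
        Nat.mul_le_mul (Nat.mul_le_mul (Nat.mul_le_mul a1 a2) a3) a4
    _ = _ := by rw [← mul_pow, ← mul_pow, ← mul_pow]

end Pool.Agent.Hhelper87.AM
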